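import Pool.Agent.Q22.CG.Stm

/-!
# Jobs CG-G156: `GG` is finitely generated, conjugation by `diag(1, J)`, an involution
-/

namespace Pool.Agent.Q176.CG

open Pool.Agent.Q22.CG Matrix
open scoped Kronecker

section Blk

variable {n : Type} [Fintype n] {F : Type} [CommRing F]

/-- the matrix `r` in the block `(a, b)` -/
def io (a b : Fin 3) (r : Matrix n n F) :
    Matrix ((Fin 3 × n) ⊕ Fin 2) ((Fin 3 × n) ⊕ Fin 2) F :=
  Matrix.fromBlocks (Matrix.single a b 1 ⊗ₖ r) 0 0 0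

/-- the column `v` in the place `(a, c)` of the upper right block -/
def col (a : Fin 3) (c : Fin 2) (v : n → F) : Matrix (Fin 3 × n) (Fin 2) F :=
  Matrix.of fun u c' => if u.1 = a ∧ c' = c then v u.2 else 0

lemma col_apply (a : Fin 3) (c : Fin 2) (v : n → F) (u : Fin 3 × n) (c' : Fin 2) :
    col a c v u c' = if u.1 = a ∧ c' = c then v u.2 else 0 := rfl

/-- the column `v` in the place `(a, c)` -/
def jo (a : Fin 3) (c : Fin 2) (v : n → F) :
    Matrix ((Fin 3 × n) ⊕ Fin 2) ((Fin 3 × n) ⊕ Fin 2) F :=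
  Matrix.fromBlocks 0 (col a c v) 0 0

lemma io_mul_io (a b c : Fin 3) (r s : Matrix n n F) : io a b r * io b c s = io a c (r * s) := by
  simp [io, fromBlocks_multiply, ← mul_kronecker_mul]

lemma io_mul_io_ne {a b c d : Fin 3} (h : b ≠ c) (r s : Matrix n n F) :
    io a b r * io c d s = 0 := by
  simp [io, fromBlocks_multiply, ← mul_kronecker_mul, h]

lemma io_zero (a b : Fin 3) : io a b (0 : Matrix n n F) = 0 := by
  simp [io]

lemma io_add (a b : Fin 3) (r s : Matrix n n F) : io a b (r + s) = io a b r + io a b s := by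
  simp [io, kronecker_add, fromBlocks_add]

lemma io_neg (a b : Fin 3) (r : Matrix n n F) : io a b (-r) = -io a b r := by
  have h := io_add a b r (-r)
  rw [add_neg_cancel, io_zero] at h
  exact (neg_eq_of_add_eq_zero_right h.symm).symm

lemma jo_zero (a : Fin 3) (c : Fin 2) : jo a c (0 : n → F) = 0 := by
  ext u w
  rcases u with u | u <;> rcases w with w | w <;> simp [jo, col_apply]

lemma jo_add (a : Fin 3) (c : Fin 2) (v w : n → F) : jo a c (v + w) = jo a c v + jo a c w := by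
  ext x y
  rcases x with x | x <;> rcases y with y | y <;> simp [jo, col_apply]
  split_ifs <;> simp

lemma jo_neg (a : Fin 3) (c : Fin 2) (v : n → F) : jo a c (-v) = -jo a c v := by
  have h := jo_add a c v (-v)
  rw [add_neg_cancel, jo_zero] at h
  exact (neg_eq_of_add_eq_zero_right h.symm).symm

lemma io_mul_jo (a b : Fin 3) (c : Fin 2) (r : Matrix n n F) (v : n → F) :
    io a b r * jo b c v = jo a c (r.mulVec v) := by
  have h1 : (Matrix.single a b 1 ⊗ₖ r) * col b c v = col a c (r.mulVec v) := ?_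
  · simp [io, jo, fromBlocks_multiply, h1]
  ext u c'
  simp only [mul_apply, kroneckerMap_apply, single_apply, col_apply,
    Fintype.sum_prod_type, mulVec, dotProduct]
  by_cases hc : c' = c
  · by_cases ha : u.1 = a
    · rw [Finset.sum_eq_single b]
      · simp [hc, ha]
      · intro b' _ hb'
        simp [hb', Ne.symm hb']
      · simp
    · simp [ha, Ne.symm ha]
  · simp [hc]

lemma jo_mul_io (a b b' : Fin 3) (c : Fin 2) (r : Matrix n n F) (v : n → F) :
    jo a c v * io b b' r = 0 := by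
  simp [io, jo, fromBlocks_multiply]

lemma jo_mul_jo (a b : Fin 3) (c d : Fin 2) (v w : n → F) :
    jo a c v * jo b d w = 0 := by
  simp [jo, fromBlocks_multiply]

end Blk

/-- `[1 + A, 1 + B] = 1 + AB` -/
lemma comm_eq {R : Type} [Ring R] (x y z : Rˣ) (A B : R) (hx : (x : R) = 1 + A)
    (hy : (y : R) = 1 + B) (hz : (z : R) = 1 + A * B) (hBA : B * A = 0) (hBB : B * B = 0) :
    z = x * y * x⁻¹ * y⁻¹ := by
  rw [eq_mul_inv_iff_mul_eq, eq_mul_inv_iff_mul_eq]
  refine Units.ext ?_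
  push_cast
  rw [hx, hy, hz]
  simp only [mul_add, add_mul, mul_one, one_mul, mul_assoc, hBA, hBB, mul_zero, add_zero]
  abel

lemma unip_mul {R : Type} [Ring R] {A B : R} (h : A * B = 0) : (1 + A) * (1 + B) = 1 + (A + B) := by
  simp only [mul_add, add_mul, mul_one, one_mul, h]
  abel

lemma unip_val {R : Type} [Ring R] {A : R} (h : A * A = 0) : (1 + A) * (1 - A) = 1 := by
  simp only [mul_sub, add_mul, mul_one, one_mul, h]
  abel

lemma unip_inv {R : Type} [Ring R] {A : R} (h : A * A = 0) : (1 - A) * (1 + A) = 1 := by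
  simp only [mul_add, sub_mul, mul_one, one_mul, h]
  abel

variable (p : ℕ → ℕ) [∀ i, Fact (p i).Prime]

lemma EM_eq (a b : Fin 3) (r : RR p) (i : ℕ) : EM p a b r i = 1 + io a b (r i) := by
  ext u w
  rcases u with ⟨a', s⟩ | u <;> rcases w with ⟨b', t⟩ | w
  · simp only [EM, io, Matrix.add_apply, fromBlocks_apply₁₁, kroneckerMap_apply, single_apply,
      one_apply]
    congr 1
    by_cases h1 : a = a' <;> by_cases h2 : b = b'
    · simp [h1, h2]
    · simp [h1, h2, Ne.symm h2]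
    · simp [h1, h2, Ne.symm h1]
    · simp [h1, h2, Ne.symm h1]
  · simp [EM, io, one_apply]
  · simp [EM, io, one_apply]
  · simp [EM, io, one_apply]

lemma TM_eq (a : Fin 3) (c : Fin 2) (v : MM p) (i : ℕ) : TM p a c v i = 1 + jo a c (v i) := by
  ext u w
  rcases u with ⟨a', s⟩ | u <;> rcases w with ⟨b', t⟩ | w <;> simp [TM, jo, col_apply, one_apply]

/-- the block elementary matrix as an element of the ambient group -/
def E (a b : Fin 3) (r : RR p) : Amb p := fun i =>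
  if h : a = b then 1 else
    { val := 1 + io a b (r i)
      inv := 1 - io a b (r i)
      val_inv := unip_val (io_mul_io_ne (Ne.symm h) _ _)
      inv_val := unip_inv (io_mul_io_ne (Ne.symm h) _ _) }

/-- the matrix `TM` as an element of the ambient group -/
def T (a : Fin 3) (c : Fin 2) (v : MM p) : Amb p := fun i =>
    { val := 1 + jo a c (v i)
      inv := 1 - jo a c (v i)
      val_inv := unip_val (jo_mul_jo _ _ _ _ _ _)
      inv_val := unip_inv (jo_mul_jo _ _ _ _ _ _) }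

lemma E_val {a b : Fin 3} (h : a ≠ b) (r : RR p) (i : ℕ) :
    ((E p a b r i : (Matrix (Ix i ⊕ Fin 2) (Ix i ⊕ Fin 2) (ZMod (p i)))ˣ) :
      Matrix (Ix i ⊕ Fin 2) (Ix i ⊕ Fin 2) (ZMod (p i))) = 1 + io a b (r i) := by
  unfold E
  rw [dif_neg h]

lemma T_val (a : Fin 3) (c : Fin 2) (v : MM p) (i : ℕ) :
    ((T p a c v i : (Matrix (Ix i ⊕ Fin 2) (Ix i ⊕ Fin 2) (ZMod (p i)))ˣ) :
      Matrix (Ix i ⊕ Fin 2) (Ix i ⊕ Fin 2) (ZMod (p i))) = 1 + jo a c (v i) := rfl

lemma eq_E {a b : Fin 3} (h : a ≠ b) {r : RR p} {g : Amb p}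
    (hg : ∀ i, (g i : Matrix (Ix i ⊕ Fin 2) (Ix i ⊕ Fin 2) (ZMod (p i))) = EM p a b r i) :
    g = E p a b r := by
  funext i
  refine Units.ext ?_
  rw [hg i, EM_eq, E_val p h]

lemma eq_T {a : Fin 3} {c : Fin 2} {v : MM p} {g : Amb p}
    (hg : ∀ i, (g i : Matrix (Ix i ⊕ Fin 2) (Ix i ⊕ Fin 2) (ZMod (p i))) = TM p a c v i) :
    g = T p a c v := by
  funext i
  refine Units.ext ?_
  rw [hg i, TM_eq, T_val]

/-- the vector `r m0` -/
def rv (r : RR p) : MM p := fun j => (r j).mulVec (m0 p j)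

lemma E_mem_GG {a b : Fin 3} (h : a ≠ b) {r : RR p} (hr : r ∈ Rg p) : E p a b r ∈ GG p := by
  refine Subgroup.subset_closure (Or.inl ⟨a, b, r, h, hr, fun i => ?_⟩)
  rw [EM_eq, E_val p h]

lemma T_mem_GG (a : Fin 3) (c : Fin 2) {r : RR p} (hr : r ∈ Rg p) : T p a c (rv p r) ∈ GG p := by
  refine Subgroup.subset_closure (Or.inr ⟨a, c, r, hr, fun i => ?_⟩)
  rw [TM_eq, T_val]
  rfl

lemma E_zero (a b : Fin 3) (h : a ≠ b) : E p a b 0 = 1 := by
  funext i
  refine Units.ext ?_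
  rw [E_val p h]
  simp [io_zero]

lemma E_add {a b : Fin 3} (h : a ≠ b) (r s : RR p) : E p a b (r + s) = E p a b r * E p a b s := by
  funext i
  refine Units.ext ?_
  rw [Pi.mul_apply, Units.val_mul, E_val p h, E_val p h, E_val p h, Pi.add_apply, io_add,
    unip_mul (io_mul_io_ne (Ne.symm h) _ _)]

lemma E_neg {a b : Fin 3} (h : a ≠ b) (r : RR p) : E p a b (-r) = (E p a b r)⁻¹ := by
  rw [eq_inv_iff_mul_eq_one, ← E_add p h, neg_add_cancel, E_zero p _ _ h]

lemma E_mul {a b c : Fin 3} (hab : a ≠ b) (hac : a ≠ c) (hcb : c ≠ b) (r s : RR p) :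
    E p a b (r * s) = E p a c r * E p c b s * (E p a c r)⁻¹ * (E p c b s)⁻¹ := by
  funext i
  refine comm_eq _ _ _ _ _ (E_val p hac r i) (E_val p hcb s i) ?_ ?_ ?_
  · rw [E_val p hab, io_mul_io]; rfl
  · exact io_mul_io_ne (Ne.symm hab) _ _
  · exact io_mul_io_ne (Ne.symm hcb) _ _

lemma T_smul {a b : Fin 3} (hab : a ≠ b) (c : Fin 2) (r : RR p) :
    T p a c (rv p r) = E p a b r * T p b c (m0 p) * (E p a b r)⁻¹ * (T p b c (m0 p))⁻¹ := by
  funext i
  refine comm_eq _ _ _ _ _ (E_val p hab r i) (T_val p b c (m0 p) i) ?_ ?_ ?_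
  · rw [T_val, io_mul_jo]; rfl
  · exact jo_mul_io _ _ _ _ _ _
  · exact jo_mul_jo _ _ _ _ _ _

/-- the finite set of ring generators -/
def gens : Set (RR p) :=
  {xx p, fun i => (xx p i).transpose, tt p, fun i => (tt p i).transpose, 1}

lemma gens_subset : gens p ⊆ Rg p := by
  intro r hr
  rcases hr with rfl | rfl | rfl | rfl | rfl
  · exact Subring.subset_closure (by simp)
  · exact Subring.subset_closure (by simp)
  · exact Subring.subset_closure (by simp)
  · exact Subring.subset_closure (by simp)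
  · exact (Rg p).one_mem

lemma m0_eq : rv p 1 = m0 p := by
  funext j
  simp [rv]

theorem g1 : S_G1 := by
  intro p _
  rw [Group.fg_iff_subgroup_fg, Subgroup.fg_iff]
  let S0 : Set (Amb p) := ((fun x : Fin 3 × Fin 3 × RR p => E p x.1 x.2.1 x.2.2) ''
    (Set.univ ×ˢ (Set.univ ×ˢ gens p))) ∪ Set.range (fun x : Fin 3 × Fin 2 => T p x.1 x.2 (m0 p))
  have hEgen : ∀ (a b : Fin 3), ∀ r ∈ gens p, E p a b r ∈ Subgroup.closure S0 := by
    intro a b r hr
    exact Subgroup.subset_closure (Or.inl ⟨(a, b, r), ⟨Set.mem_univ _, Set.mem_univ _, hr⟩, rfl⟩)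
  have hTgen : ∀ (a : Fin 3) (c : Fin 2), T p a c (m0 p) ∈ Subgroup.closure S0 := by
    intro a c
    exact Subgroup.subset_closure (Or.inr ⟨(a, c), rfl⟩)
  have hE : ∀ r ∈ Rg p, ∀ a b : Fin 3, a ≠ b → E p a b r ∈ Subgroup.closure S0 := by
    intro r hr
    refine Subring.closure_induction ?_ ?_ ?_ ?_ ?_ ?_ hr
    · intro x hx a b _
      refine hEgen a b x ?_
      rcases hx with rfl | rfl | rfl | rfl <;> simp [gens]
    · intro a b h
      rw [E_zero p a b h]
      exact Subgroup.one_mem _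
    · intro a b _
      exact hEgen a b 1 (by simp [gens])
    · intro x y _ _ hx hy a b h
      rw [E_add p h]
      exact Subgroup.mul_mem _ (hx a b h) (hy a b h)
    · intro x _ hx a b h
      rw [E_neg p h]
      exact Subgroup.inv_mem _ (hx a b h)
    · intro x y _ _ hx hy a b h
      obtain ⟨c, h1, h2⟩ := (by decide : ∀ a b : Fin 3, a ≠ b → ∃ c, a ≠ c ∧ c ≠ b) a b h
      rw [E_mul p h h1 h2]
      exact Subgroup.mul_mem _ (Subgroup.mul_mem _ (Subgroup.mul_mem _ (hx a c h1) (hy c b h2))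
        (Subgroup.inv_mem _ (hx a c h1))) (Subgroup.inv_mem _ (hy c b h2))
  refine ⟨S0, le_antisymm ?_ ?_, ?_⟩
  · rw [Subgroup.closure_le]
    rintro g (⟨⟨a, b, r⟩, ⟨_, _, hr⟩, rfl⟩ | ⟨⟨a, c⟩, rfl⟩)
    · by_cases h : a = b
      · have : E p a b r = 1 := by
          funext i
          simp [E, h]
        simp only [this]
        exact (GG p).one_mem
      · exact E_mem_GG p h (gens_subset p hr)
    · have := T_mem_GG p a c (Rg p).one_mem
      rwa [m0_eq] at this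
  · rw [GG, Subgroup.closure_le]
    rintro g (⟨a, b, r, hab, hr, hg⟩ | ⟨a, c, r, hr, hg⟩)
    · rw [eq_E p hab hg]
      exact hE r hr a b hab
    · rw [eq_T p hg]
      obtain ⟨b, h1⟩ := (by decide : ∀ a : Fin 3, ∃ b, a ≠ b) a
      have h2 := T_smul p h1 c r
      change T p a c (rv p r) ∈ _
      rw [h2]
      exact Subgroup.mul_mem _ (Subgroup.mul_mem _ (Subgroup.mul_mem _ (hE r hr a b h1)
        (hTgen b c)) (Subgroup.inv_mem _ (hE r hr a b h1))) (Subgroup.inv_mem _ (hTgen b c))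
  · refine Set.Finite.union (Set.Finite.image _ ?_) (Set.finite_range _)
    refine Set.finite_univ.prod (Set.finite_univ.prod ?_)
    simp [gens]

/-! ### conjugation by `diag(1, J)` -/

/-- the inverse of `diag(1, J)` -/
def Jd' (ι : Type) [DecidableEq ι] (F : Type) [Field F] : Matrix (ι ⊕ Fin 2) (ι ⊕ Fin 2) F :=
  Matrix.fromBlocks 1 0 0 !![-1, -1; 1, 0]

section Jd

variable {F : Type} [Field F] (ι : Type) [Fintype ι] [DecidableEq ι]

lemma Jd_mul_Jd' : Jd ι F * Jd' ι F = 1 := by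
  unfold Jd Jd'
  rw [fromBlocks_multiply, ← fromBlocks_one]
  congr 1
  · simp
  · simp
  · simp
  · ext i j
    fin_cases i <;> fin_cases j <;> simp

lemma Jd'_mul_Jd : Jd' ι F * Jd ι F = 1 := by
  unfold Jd Jd'
  rw [fromBlocks_multiply, ← fromBlocks_one]
  congr 1
  · simp
  · simp
  · simp
  · ext i j
    fin_cases i <;> fin_cases j <;> simp

lemma Jd_mul_Jd : Jd ι F * Jd ι F = Jd' ι F := by
  unfold Jd Jd'
  rw [fromBlocks_multiply]
  congr 1
  · simp
  · simp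
  · simp
  · ext i j
    fin_cases i <;> fin_cases j <;> simp

variable {n : Type} [Fintype n] [DecidableEq n]

lemma Jd_io (a b : Fin 3) (r : Matrix n n F) : Jd (Fin 3 × n) F * io a b r = io a b r := by
  simp [Jd, io, fromBlocks_multiply]

lemma io_Jd' (a b : Fin 3) (r : Matrix n n F) : io a b r * Jd' (Fin 3 × n) F = io a b r := by
  simp [Jd', io, fromBlocks_multiply]

lemma Jd_jo (a : Fin 3) (c : Fin 2) (v : n → F) : Jd (Fin 3 × n) F * jo a c v = jo a c v := by
  simp [Jd, jo, fromBlocks_multiply]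

lemma jo_Jd' (a : Fin 3) (v : n → F) :
    jo a 0 v * Jd' (Fin 3 × n) F = jo a 0 (-v) + jo a 1 (-v) := by
  have h1 : col a 0 v * (!![-1, -1; 1, 0] : Matrix (Fin 2) (Fin 2) F) =
      col a 0 (-v) + col a 1 (-v) := by
    ext u j
    fin_cases j <;> simp [mul_apply, Fin.sum_univ_two, col_apply]
  simp [Jd', jo, fromBlocks_multiply, fromBlocks_add, h1]

lemma jo_Jd'_one (a : Fin 3) (v : n → F) :
    jo a 1 v * Jd' (Fin 3 × n) F = jo a 0 v := by
  have h1 : col a 1 v * (!![-1, -1; 1, 0] : Matrix (Fin 2) (Fin 2) F) = col a 0 v := by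
    ext u j
    fin_cases j <;> simp [mul_apply, Fin.sum_univ_two, col_apply]
  simp [Jd', jo, fromBlocks_multiply, h1]

end Jd

/-- the element `diag(1, J)` of the ambient group -/
def aJ : Amb p := fun i =>
  { val := Jd (Ix i) (ZMod (p i))
    inv := Jd' (Ix i) (ZMod (p i))
    val_inv := Jd_mul_Jd' _
    inv_val := Jd'_mul_Jd _ }

lemma T_neg_rv (a : Fin 3) (c : Fin 2) (r : RR p) : T p a c (-rv p r) = T p a c (rv p (-r)) := by
  congr 1
  funext j
  simp [rv, neg_mulVec]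

theorem g5 : S_G5 := by
  intro p _
  refine ⟨aJ p, fun i => rfl, ?_, ?_⟩
  · funext i
    refine Units.ext ?_
    change Jd (Ix i) (ZMod (p i)) * Jd (Ix i) (ZMod (p i)) * Jd (Ix i) (ZMod (p i)) = 1
    rw [Jd_mul_Jd, Jd'_mul_Jd]
  · intro g hg
    refine Subgroup.closure_induction (p := fun g _ => aJ p * g * (aJ p)⁻¹ ∈ GG p) ?_ ?_ ?_ ?_ hg
    · rintro g (⟨a, b, r, hab, hr, hg⟩ | ⟨a, c, r, hr, hg⟩)
      · rw [eq_E p hab hg]
        have : aJ p * E p a b r * (aJ p)⁻¹ = E p a b r := by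
          funext i
          refine Units.ext ?_
          have h1 : ((aJ p * E p a b r * (aJ p)⁻¹) i : Matrix (Ix i ⊕ Fin 2) (Ix i ⊕ Fin 2)
              (ZMod (p i))) = Jd (Ix i) (ZMod (p i)) *
              ((E p a b r i : (Matrix (Ix i ⊕ Fin 2) (Ix i ⊕ Fin 2) (ZMod (p i)))ˣ) :
                Matrix (Ix i ⊕ Fin 2) (Ix i ⊕ Fin 2) (ZMod (p i))) * Jd' (Ix i) (ZMod (p i)) := rfl
          rw [h1, E_val p hab, mul_add, mul_one, add_mul, Jd_mul_Jd', Jd_io, io_Jd']
        rw [this]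
        exact E_mem_GG p hab hr
      · rw [eq_T p hg]
        change aJ p * T p a c (rv p r) * (aJ p)⁻¹ ∈ GG p
        have h1 : ∀ i, ((aJ p * T p a c (rv p r) * (aJ p)⁻¹) i :
            Matrix (Ix i ⊕ Fin 2) (Ix i ⊕ Fin 2)
              (ZMod (p i))) = 1 + jo a c (rv p r i) * Jd' (Ix i) (ZMod (p i)) := by
          intro i
          have h1 : ((aJ p * T p a c (rv p r) * (aJ p)⁻¹) i : Matrix (Ix i ⊕ Fin 2) (Ix i ⊕ Fin 2)
              (ZMod (p i))) = Jd (Ix i) (ZMod (p i)) *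
              ((T p a c (rv p r) i : (Matrix (Ix i ⊕ Fin 2) (Ix i ⊕ Fin 2) (ZMod (p i)))ˣ) :
                Matrix (Ix i ⊕ Fin 2) (Ix i ⊕ Fin 2) (ZMod (p i))) * Jd' (Ix i) (ZMod (p i)) := rfl
          rw [h1, T_val, mul_add, mul_one, add_mul, Jd_mul_Jd', Jd_jo]
        rcases (by decide : ∀ c : Fin 2, c = 0 ∨ c = 1) c with rfl | rfl
        · have h2 : aJ p * T p a 0 (rv p r) * (aJ p)⁻¹ =
              T p a 0 (rv p (-r)) * T p a 1 (rv p (-r)) := by
            funext i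
            refine Units.ext ?_
            rw [h1, jo_Jd', ← T_neg_rv, ← T_neg_rv, Pi.mul_apply, Units.val_mul, T_val, T_val,
              unip_mul (jo_mul_jo _ _ _ _ _ _)]
            rfl
          rw [h2]
          exact (GG p).mul_mem (T_mem_GG p a 0 ((Rg p).neg_mem hr))
            (T_mem_GG p a 1 ((Rg p).neg_mem hr))
        · have h2 : aJ p * T p a 1 (rv p r) * (aJ p)⁻¹ = T p a 0 (rv p r) := by
            funext i
            refine Units.ext ?_
            rw [h1, jo_Jd'_one, T_val]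
          rw [h2]
          exact T_mem_GG p a 0 hr
    · simp
    · intro x y _ _ hx hy
      have : aJ p * (x * y) * (aJ p)⁻¹ = (aJ p * x * (aJ p)⁻¹) * (aJ p * y * (aJ p)⁻¹) := by
        group
      rw [this]
      exact (GG p).mul_mem hx hy
    · intro x _ hx
      have : aJ p * x⁻¹ * (aJ p)⁻¹ = (aJ p * x * (aJ p)⁻¹)⁻¹ := by
        group
      rw [this]
      exact (GG p).inv_mem hx

/-! ### an involution -/

section Inv

variable {n : Type} [Fintype n] [DecidableEq n] {F : Type} [CommRing F]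

/-- block scalar matrices -/
def bs (M : Matrix (Fin 3) (Fin 3) F) : Matrix ((Fin 3 × n) ⊕ Fin 2) ((Fin 3 × n) ⊕ Fin 2) F :=
  Matrix.fromBlocks (M ⊗ₖ (1 : Matrix n n F)) 0 0 1

lemma bs_mul (M N : Matrix (Fin 3) (Fin 3) F) :
    (bs M * bs N : Matrix ((Fin 3 × n) ⊕ Fin 2) ((Fin 3 × n) ⊕ Fin 2) F) = bs (M * N) := by
  simp [bs, fromBlocks_multiply, ← mul_kronecker_mul]

lemma bs_one : (bs 1 : Matrix ((Fin 3 × n) ⊕ Fin 2) ((Fin 3 × n) ⊕ Fin 2) F) = 1 := by
  simp [bs]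

lemma one_add_io (a b : Fin 3) (c : F) : (1 + io a b (c • (1 : Matrix n n F)) :
    Matrix ((Fin 3 × n) ⊕ Fin 2) ((Fin 3 × n) ⊕ Fin 2) F) = bs (1 + Matrix.single a b c) := by
  have h : (Matrix.single a b c : Matrix (Fin 3) (Fin 3) F) ⊗ₖ (1 : Matrix n n F) =
      Matrix.single a b 1 ⊗ₖ (c • (1 : Matrix n n F)) := by
    rw [kronecker_smul, ← smul_kronecker, smul_single, smul_eq_mul, mul_one]
  rw [bs, io, ← fromBlocks_one, fromBlocks_add, add_kronecker, one_kronecker_one, h]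
  simp

end Inv

theorem g6 : S_G6 := by
  intro p _ hp
  have h01 : (0 : Fin 3) ≠ 1 := by decide
  have h10 : (1 : Fin 3) ≠ 0 := by decide
  let w : Amb p := E p 0 1 1 * E p 1 0 (-1) * E p 0 1 1
  have hw : w ∈ GG p := (GG p).mul_mem ((GG p).mul_mem (E_mem_GG p h01 (Rg p).one_mem)
    (E_mem_GG p h10 ((Rg p).neg_mem (Rg p).one_mem))) (E_mem_GG p h01 (Rg p).one_mem)
  have hwv : ∀ i, ((w i : (Matrix (Ix i ⊕ Fin 2) (Ix i ⊕ Fin 2) (ZMod (p i)))ˣ) :
      Matrix (Ix i ⊕ Fin 2) (Ix i ⊕ Fin 2) (ZMod (p i))) =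
      bs (!![0, 1, 0; -1, 0, 0; 0, 0, 1] : Matrix (Fin 3) (Fin 3) (ZMod (p i))) := by
    intro i
    have h1 : ((w i : (Matrix (Ix i ⊕ Fin 2) (Ix i ⊕ Fin 2) (ZMod (p i)))ˣ) :
      Matrix (Ix i ⊕ Fin 2) (Ix i ⊕ Fin 2) (ZMod (p i))) =
      ((E p 0 1 1 i : (Matrix (Ix i ⊕ Fin 2) (Ix i ⊕ Fin 2) (ZMod (p i)))ˣ) :
      Matrix (Ix i ⊕ Fin 2) (Ix i ⊕ Fin 2) (ZMod (p i))) *
      ((E p 1 0 (-1) i : (Matrix (Ix i ⊕ Fin 2) (Ix i ⊕ Fin 2) (ZMod (p i)))ˣ) :
      Matrix (Ix i ⊕ Fin 2) (Ix i ⊕ Fin 2) (ZMod (p i))) *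
      ((E p 0 1 1 i : (Matrix (Ix i ⊕ Fin 2) (Ix i ⊕ Fin 2) (ZMod (p i)))ˣ) :
      Matrix (Ix i ⊕ Fin 2) (Ix i ⊕ Fin 2) (ZMod (p i))) := rfl
    have e1 : (1 : RR p) i = (1 : ZMod (p i)) • (1 : Matrix (Fin (3 ^ i)) (Fin (3 ^ i))
      (ZMod (p i))) := by simp
    have e2 : (-1 : RR p) i = (-1 : ZMod (p i)) • (1 : Matrix (Fin (3 ^ i)) (Fin (3 ^ i))
      (ZMod (p i))) := by simp
    rw [h1, E_val p h01, E_val p h10, e1, e2, one_add_io, one_add_io, bs_mul, bs_mul]
    congr 1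
    ext a b
    fin_cases a <;> fin_cases b <;> simp [mul_apply, Fin.sum_univ_three, single_apply, one_apply]
  have hkv : ∀ i, (((w * w) i : (Matrix (Ix i ⊕ Fin 2) (Ix i ⊕ Fin 2) (ZMod (p i)))ˣ) :
      Matrix (Ix i ⊕ Fin 2) (Ix i ⊕ Fin 2) (ZMod (p i))) =
      bs (!![-1, 0, 0; 0, -1, 0; 0, 0, 1] : Matrix (Fin 3) (Fin 3) (ZMod (p i))) := by
    intro i
    rw [Pi.mul_apply, Units.val_mul, hwv i, bs_mul]
    congr 1
    ext a b
    fin_cases a <;> fin_cases b <;> simp [mul_apply, Fin.sum_univ_three]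
  refine ⟨w * w, (GG p).mul_mem hw hw, ?_, ?_⟩
  · funext i
    refine Units.ext ?_
    rw [Pi.mul_apply, Units.val_mul, hkv i, bs_mul]
    have : (!![-1, 0, 0; 0, -1, 0; 0, 0, 1] * !![-1, 0, 0; 0, -1, 0; 0, 0, 1] :
        Matrix (Fin 3) (Fin 3) (ZMod (p i))) = 1 := by
      ext a b
      fin_cases a <;> fin_cases b <;> simp [mul_apply, Fin.sum_univ_three]
    rw [this, bs_one]
    rfl
  · intro i hi
    have h1 := hkv i
    rw [hi] at h1
    have h2 := congrFun (congrFun h1 (Sum.inl (0, ⟨0, by positivity⟩)))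
      (Sum.inl (0, ⟨0, by positivity⟩))
    simp [bs] at h2
    have h3 : (2 : ZMod (p i)) = 0 := by linear_combination h2
    have h4 : ((2 : ℕ) : ZMod (p i)) = 0 := by exact_mod_cast h3
    rw [ZMod.natCast_eq_zero_iff] at h4
    exact hp i ((Nat.prime_dvd_prime_iff_eq (Fact.out : (p i).Prime) Nat.prime_two).mp h4)

end Pool.Agent.Q176.CG
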