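import Pool.Agent.Q176.CG.G156

/-!
# Job CG-Q34: `S_Q3`, `S_Q4`, `S_J`, `S_G3`
-/

namespace Pool.Agent.Q176.CG

open Pool.Agent.Q22.CG Matrix
open scoped Kronecker

section QG

variable {ι : Type} [Fintype ι] [DecidableEq ι] {F : Type} [Field F]

lemma transvection_pow {n : Type} [Fintype n] [DecidableEq n] {i j : n} (h : i ≠ j) (c : F)
    (k : ℕ) : (transvection i j c) ^ k = transvection i j ((k : F) * c) := by
  induction k with
  | zero => simp
  | succ k ih =>
    rw [pow_succ, ih, transvection_mul_transvection_same _ _ h]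
    push_cast
    ring_nf

theorem q3 : S_Q3 := by
  intro ι _ _ p _ L hL hne
  by_contra hlt
  push Not at hlt
  refine hne ?_
  haveI : Finite (QG ι (ZMod p)) := inferInstance
  have hgen : ∀ g ∈ {g : (Matrix (ι ⊕ Fin 2) (ι ⊕ Fin 2) (ZMod p))ˣ |
      ∃ (u : ι) (w : ι ⊕ Fin 2) (c : ZMod p), Sum.inl u ≠ w ∧
    (g : Matrix (ι ⊕ Fin 2) (ι ⊕ Fin 2) (ZMod p)) = Matrix.transvection (Sum.inl u) w c},
      g ∈ L.map (QG ι (ZMod p)).subtype := by
    intro g hg
    have hgQ : g ∈ QG ι (ZMod p) := Subgroup.subset_closure hg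
    obtain ⟨u, w, c, huw, hgv⟩ := hg
    refine ⟨⟨g, hgQ⟩, ?_, rfl⟩
    have hpow : (⟨g, hgQ⟩ : QG ι (ZMod p)) ^ p = 1 := by
      refine Subtype.ext (Units.ext ?_)
      push_cast
      rw [hgv, transvection_pow huw]
      simp
    have h1 : orderOf ((⟨g, hgQ⟩ : QG ι (ZMod p)) : QG ι (ZMod p) ⧸ L) ∣ p := by
      rw [orderOf_dvd_iff_pow_eq_one, ← QuotientGroup.mk_pow, hpow, QuotientGroup.mk_one]
    have h2 : orderOf ((⟨g, hgQ⟩ : QG ι (ZMod p)) : QG ι (ZMod p) ⧸ L) ∣ L.index := by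
      rw [Subgroup.index]
      exact orderOf_dvd_natCard _
    rcases (Nat.dvd_prime (Fact.out : p.Prime)).mp h1 with h | h
    · rw [orderOf_eq_one_iff, QuotientGroup.eq_one_iff] at h
      exact h
    · rw [h] at h2
      have h3 : 0 < L.index := Nat.pos_of_ne_zero Subgroup.index_ne_zero_of_finite
      exact absurd (Nat.le_of_dvd h3 h2) (by omega)
  have h1 : QG ι (ZMod p) ≤ L.map (QG ι (ZMod p)).subtype := by
    conv_lhs => rw [QG]
    rw [Subgroup.closure_le]
    exact hgen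
  rw [eq_top_iff]
  rintro ⟨g, hg⟩ -
  obtain ⟨x, hx, hxg⟩ := h1 hg
  have : x = ⟨g, hg⟩ := Subtype.ext hxg
  exact this ▸ hx

/-- the bottom rows of the elements of `QG` are trivial -/
lemma bot_row {g : (Matrix (ι ⊕ Fin 2) (ι ⊕ Fin 2) F)ˣ} (hg : g ∈ QG ι F) (c : Fin 2) :
    Matrix.vecMul (Pi.single (Sum.inr c) 1) g.val = Pi.single (Sum.inr c) 1 := by
  refine Subgroup.closure_induction
    (p := fun g _ => Matrix.vecMul (Pi.single (Sum.inr c) 1) g.val = Pi.single (Sum.inr c) 1)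
    ?_ ?_ ?_ ?_ hg
  · rintro g ⟨u, w, d, huw, hg⟩
    rw [hg]
    ext x
    simp [transvection, vecMul_add, Matrix.one_apply, Pi.single_apply, eq_comm]
  · simp
  · intro x y _ _ hx hy
    rw [Units.val_mul, ← vecMul_vecMul, hx, hy]
  · intro x _ hx
    calc Matrix.vecMul (Pi.single (Sum.inr c) 1) (x⁻¹).val
        = Matrix.vecMul (Matrix.vecMul (Pi.single (Sum.inr c) 1) x.val) (x⁻¹).val := by rw [hx]
      _ = _ := by rw [vecMul_vecMul, ← Units.val_mul, mul_inv_cancel]; simp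

lemma bot_apply {g : (Matrix (ι ⊕ Fin 2) (ι ⊕ Fin 2) F)ˣ} (hg : g ∈ QG ι F) (c : Fin 2)
    (x : ι ⊕ Fin 2) : g.val (Sum.inr c) x = if x = Sum.inr c then 1 else 0 := by
  have := congrFun (bot_row hg c) x
  simpa [Pi.single_apply] using this

/-- `[[1, B], [0, 1]]` -/
def nb (B : Matrix ι (Fin 2) F) : Matrix (ι ⊕ Fin 2) (ι ⊕ Fin 2) F := fromBlocks 0 B 0 0

lemma nb_add (B C : Matrix ι (Fin 2) F) : nb (B + C) = nb B + nb C := by
  simp [nb, fromBlocks_add]

lemma nb_mul (B C : Matrix ι (Fin 2) F) : nb B * nb C = 0 := by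
  simp [nb, fromBlocks_multiply]

lemma inV_iff (ℓ : Submodule F (Fin 2 → F)) {g : (Matrix (ι ⊕ Fin 2) (ι ⊕ Fin 2) F)ˣ}
    (hg : g ∈ QG ι F) : InV ℓ g.val ↔
      ∃ B : Matrix ι (Fin 2) F, (∀ u, B u ∈ ℓ) ∧ g.val = 1 + nb B := by
  constructor
  · intro h
    refine ⟨Matrix.of fun u c => g.val (Sum.inl u) (Sum.inr c), fun u => h.2 u, ?_⟩
    ext x y
    rcases x with x | x
    · rcases y with y | y
      · rw [h.1]
        simp [nb, Matrix.one_apply]
      · simp [nb]
    · rw [bot_apply hg]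
      rcases y with y | y
      · simp [nb]
      · simp [nb, Matrix.one_apply, eq_comm]
  · rintro ⟨B, hB, h⟩
    rw [h]
    refine ⟨fun u u' => ?_, fun u => ?_⟩
    · simp [nb, Matrix.one_apply]
    · have : (fun c : Fin 2 => (1 + nb B) (Sum.inl u) (Sum.inr c)) = B u := by
        funext c
        simp [nb]
      rw [this]
      exact hB u

/-- multiplication of `nb B` from the right by elements of `QG` does nothing -/
lemma nb_mul_QG {g : (Matrix (ι ⊕ Fin 2) (ι ⊕ Fin 2) F)ˣ} (hg : g ∈ QG ι F)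
    (B : Matrix ι (Fin 2) F) : nb B * g.val = nb B := by
  ext x y
  rcases x with x | x
  · simp only [nb, mul_apply, Fintype.sum_sum_type, fromBlocks_apply₁₁, Matrix.zero_apply, zero_mul,
      Finset.sum_const_zero, zero_add, fromBlocks_apply₁₂]
    rw [Finset.sum_congr rfl (fun c _ => by rw [bot_apply hg c y])]
    rcases y with y | y
    · simp
    · simp
  · rcases y with y | y <;> simp [nb, mul_apply]

lemma mul_nb {g : (Matrix (ι ⊕ Fin 2) (ι ⊕ Fin 2) F)ˣ} (hg : g ∈ QG ι F)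
    (B : Matrix ι (Fin 2) F) : g.val * nb B =
      nb (Matrix.of fun u => ∑ v, g.val (Sum.inl u) (Sum.inl v) • B v) := by
  ext x y
  rcases x with x | x
  · rcases y with y | y
    · simp [nb, mul_apply]
    · simp [nb, mul_apply]
  · rcases y with y | y
    · simp [nb, mul_apply]
    · simp [nb, mul_apply, bot_apply hg]

end QG

theorem q4 : S_Q4 := by
  intro ι _ _ _ p _
  refine ⟨fun ℓ => ?_, fun ℓ ℓ' h => ?_, ?_⟩
  · refine ⟨{ carrier := {g | InV ℓ (g : (Matrix (ι ⊕ Fin 2) (ι ⊕ Fin 2) (ZMod p))ˣ).val}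
              mul_mem' := ?_
              one_mem' := ?_
              inv_mem' := ?_ }, ⟨?_⟩, fun g => Iff.rfl⟩
    · intro g h hg hh
      obtain ⟨B, hB, e⟩ := (inV_iff ℓ g.2).mp hg
      obtain ⟨C, hC, e'⟩ := (inV_iff ℓ h.2).mp hh
      refine (inV_iff ℓ (g * h).2).mpr ⟨B + C, fun u => ℓ.add_mem (hB u) (hC u), ?_⟩
      rw [Subgroup.coe_mul, Units.val_mul, e, e', unip_mul (nb_mul _ _), nb_add]
    · refine (inV_iff ℓ (1 : QG ι (ZMod p)).2).mpr ⟨0, fun u => ℓ.zero_mem, ?_⟩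
      simp [nb]
    · intro g hg
      obtain ⟨B, hB, e⟩ := (inV_iff ℓ g.2).mp hg
      refine (inV_iff ℓ (g⁻¹).2).mpr ⟨-B, fun u => ℓ.neg_mem (hB u), ?_⟩
      have h1 : (g : (Matrix (ι ⊕ Fin 2) (ι ⊕ Fin 2) (ZMod p))ˣ).val * (1 + nb (-B)) = 1 := by
        rw [e, unip_mul (nb_mul _ _), ← nb_add]
        simp [nb]
      rw [Subgroup.coe_inv]
      exact (Units.eq_inv_of_mul_eq_one_left (u := (g : (Matrix (ι ⊕ Fin 2) (ι ⊕ Fin 2)
        (ZMod p))ˣ)) h1).symm
    · intro g hg h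
      obtain ⟨B, hB, e⟩ := (inV_iff ℓ g.2).mp hg
      refine (inV_iff ℓ (h * g * h⁻¹).2).mpr
        ⟨Matrix.of fun u => ∑ v, (h : (Matrix (ι ⊕ Fin 2) (ι ⊕ Fin 2) (ZMod p))ˣ).val
          (Sum.inl u) (Sum.inl v) • B v, fun u => ?_, ?_⟩
      · exact ℓ.sum_mem fun v _ => ℓ.smul_mem _ (hB v)
      · rw [Subgroup.coe_mul, Subgroup.coe_mul, Subgroup.coe_inv, Units.val_mul, Units.val_mul, e,
          mul_add, mul_one, mul_nb h.2, add_mul, ← Units.val_mul, mul_inv_cancel, Units.val_one]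
        congr 1
        exact nb_mul_QG (QG ι (ZMod p) |>.inv_mem h.2) _
  · obtain ⟨u⟩ := (inferInstance : Nonempty ι)
    have key : ∀ ξ : Fin 2 → ZMod p, ∃ g : QG ι (ZMod p), ∀ ℓ : Submodule (ZMod p) (Fin 2 → ZMod p),
        InV ℓ (g : (Matrix (ι ⊕ Fin 2) (ι ⊕ Fin 2) (ZMod p))ˣ).val ↔ ξ ∈ ℓ := by
      intro ξ
      have h0 : (Sum.inl u : ι ⊕ Fin 2) ≠ Sum.inr 0 := by simp
      have h1 : (Sum.inl u : ι ⊕ Fin 2) ≠ Sum.inr 1 := by simp
      let g0 : (Matrix (ι ⊕ Fin 2) (ι ⊕ Fin 2) (ZMod p))ˣ :=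
        { val := transvection (Sum.inl u) (Sum.inr 0) (ξ 0)
          inv := transvection (Sum.inl u) (Sum.inr 0) (-ξ 0)
          val_inv := by rw [transvection_mul_transvection_same _ _ h0]; simp
          inv_val := by rw [transvection_mul_transvection_same _ _ h0]; simp }
      let g1 : (Matrix (ι ⊕ Fin 2) (ι ⊕ Fin 2) (ZMod p))ˣ :=
        { val := transvection (Sum.inl u) (Sum.inr 1) (ξ 1)
          inv := transvection (Sum.inl u) (Sum.inr 1) (-ξ 1)
          val_inv := by rw [transvection_mul_transvection_same _ _ h1]; simp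
          inv_val := by rw [transvection_mul_transvection_same _ _ h1]; simp }
      have hg0 : g0 ∈ QG ι (ZMod p) := Subgroup.subset_closure ⟨u, Sum.inr 0, ξ 0, h0, rfl⟩
      have hg1 : g1 ∈ QG ι (ZMod p) := Subgroup.subset_closure ⟨u, Sum.inr 1, ξ 1, h1, rfl⟩
      refine ⟨⟨g0 * g1, (QG ι (ZMod p)).mul_mem hg0 hg1⟩, fun ℓ => ?_⟩
      have hv : (g0 * g1).val = 1 + nb (Matrix.of fun v => if v = u then ξ else 0) := by
        rw [Units.val_mul]
        change transvection (Sum.inl u) (Sum.inr 0) (ξ 0) *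
          transvection (Sum.inl u) (Sum.inr 1) (ξ 1) = _
        rw [transvection, transvection, unip_mul (by simp)]
        congr 1
        ext x y
        rcases x with x | x <;> rcases y with y | y
        · simp [nb]
        · simp only [Matrix.add_apply, single_apply, nb, fromBlocks_apply₁₂, of_apply]
          fin_cases y
          · by_cases hx : x = u
            · simp [hx]
            · simp [hx, Ne.symm hx]
          · by_cases hx : x = u
            · simp [hx]
            · simp [hx, Ne.symm hx]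
        · simp [nb]
        · simp [nb]
      constructor
      · intro h
        have h2 := h.2 u
        have h3 : (fun c : Fin 2 => (g0 * g1).val (Sum.inl u) (Sum.inr c)) = ξ := by
          funext c
          rw [hv]
          simp [nb]
        exact h3 ▸ h2
      · intro h
        refine (inV_iff ℓ ((QG ι (ZMod p)).mul_mem hg0 hg1)).mpr ⟨_, fun v => ?_, hv⟩
        change (if v = u then ξ else 0) ∈ ℓ
        split_ifs
        · exact h
        · exact ℓ.zero_mem
    ext ξ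
    obtain ⟨g, hg⟩ := key ξ
    rw [← hg ℓ, ← hg ℓ']
    exact h g
  · have h1 : Nat.card (QG ι (ZMod p)) ≤
        Nat.card (Matrix (ι ⊕ Fin 2) (ι ⊕ Fin 2) (ZMod p)) := by
      refine Nat.card_le_card_of_injective (fun g => (g : (Matrix (ι ⊕ Fin 2) (ι ⊕ Fin 2)
        (ZMod p))ˣ).val) ?_
      intro g h hgh
      exact Subtype.ext (Units.ext hgh)
    refine h1.trans (le_of_eq ?_)
    rw [show Matrix (ι ⊕ Fin 2) (ι ⊕ Fin 2) (ZMod p) = (ι ⊕ Fin 2 → ι ⊕ Fin 2 → ZMod p) from rfl,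
      Nat.card_fun, Nat.card_fun, Nat.card_zmod, ← pow_mul]
    congr 1
    simp [Nat.card_sum, sq]

theorem jj : S_J := by
  intro p _ hp ℓ hℓ
  by_cases hbot : ℓ = ⊥
  · exact Or.inl hbot
  right
  obtain ⟨v, hv, hv0⟩ := (Submodule.ne_bot_iff _).mp hbot
  by_cases hd : v 0 ^ 2 - v 0 * v 1 + v 1 ^ 2 = 0
  · exfalso
    have hv00 : v 0 ≠ 0 := by
      intro h
      rw [h] at hd
      have h1 : v 1 = 0 := by
        have : v 1 ^ 2 = 0 := by linear_combination hd
        exact pow_eq_zero_iff two_ne_zero |>.mp this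
      refine hv0 ?_
      funext c
      fin_cases c
      · exact h
      · exact h1
    have hs0 : -(v 1 / v 0) * (-(v 1 / v 0)) + -(v 1 / v 0) + 1 = 0 := by
      field_simp
      linear_combination hd
    obtain ⟨s, hs⟩ : ∃ s : ZMod p, s = -(v 1 / v 0) := ⟨_, rfl⟩
    rw [← hs] at hs0
    have hs3 : s ^ 3 = 1 := by linear_combination (s - 1) * hs0
    have hsne : s ≠ 0 := by
      intro h
      rw [h] at hs0
      simp at hs0
    by_cases hs1 : s = 1
    · rw [hs1] at hs0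
      have h3 : ((3 : ℕ) : ZMod p) = 0 := by
        push_cast
        linear_combination hs0
      rw [ZMod.natCast_eq_zero_iff] at h3
      have := (Nat.prime_dvd_prime_iff_eq (Fact.out : p.Prime) Nat.prime_three).mp h3
      omega
    · haveI : Fact (Nat.Prime 3) := ⟨Nat.prime_three⟩
      have h1 : orderOf (Units.mk0 s hsne) = 3 := by
        refine orderOf_eq_prime ?_ ?_
        · refine Units.ext ?_
          simpa using hs3
        · intro h
          exact hs1 (by simpa using congrArg Units.val h)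
      have h2 := ZMod.orderOf_units_dvd_card_sub_one (Units.mk0 s hsne)
      rw [h1] at h2
      have h3 := (Fact.out : p.Prime).one_lt
      omega
  · rw [eq_top_iff]
    intro x _
    have hw := hℓ v hv
    obtain ⟨d, hdd⟩ : ∃ d : ZMod p, d = v 0 ^ 2 - v 0 * v 1 + v 1 ^ 2 := ⟨_, rfl⟩
    rw [← hdd] at hd
    have h1 : x = ((x 0 * v 0 + x 1 * (v 1 - v 0)) / d) • v +
        ((v 1 * x 0 - v 0 * x 1) / d) • (![v 1 - v 0, - v 0] : Fin 2 → ZMod p) := by
      funext c
      fin_cases c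
      · simp
        field_simp
        rw [hdd]
        ring
      · simp
        field_simp
        rw [hdd]
        ring
    rw [h1]
    exact ℓ.add_mem (ℓ.smul_mem _ hv) (ℓ.smul_mem _ hw)

section G3

variable {n : Type} [Fintype n] [DecidableEq n] {F : Type} [Field F]

lemma io_mem {a b : Fin 3} (hab : a ≠ b) (r : Matrix n n F)
    (g : (Matrix ((Fin 3 × n) ⊕ Fin 2) ((Fin 3 × n) ⊕ Fin 2) F)ˣ) (hg : g.val = 1 + io a b r) :
    g ∈ QG (Fin 3 × n) F := by
  have hunit : ∀ r : Matrix n n F,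
      ∃ g : (Matrix ((Fin 3 × n) ⊕ Fin 2) ((Fin 3 × n) ⊕ Fin 2) F)ˣ, g.val = 1 + io a b r :=
    fun r => ⟨⟨1 + io a b r, 1 - io a b r, unip_val (io_mul_io_ne (Ne.symm hab) _ _),
      unip_inv (io_mul_io_ne (Ne.symm hab) _ _)⟩, rfl⟩
  revert g
  refine Matrix.induction_on' (P := fun r => ∀ g : (Matrix ((Fin 3 × n) ⊕ Fin 2)
    ((Fin 3 × n) ⊕ Fin 2) F)ˣ, g.val = 1 + io a b r → g ∈ QG (Fin 3 × n) F) r ?_ ?_ ?_
  · intro g hg
    have : g = 1 := by
      refine Units.ext ?_
      rw [hg, io_zero]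
      simp
    rw [this]
    exact Subgroup.one_mem _
  · intro r s hr hs g hg
    obtain ⟨g1, h1⟩ := hunit r
    obtain ⟨g2, h2⟩ := hunit s
    have : g = g1 * g2 := by
      refine Units.ext ?_
      rw [hg, io_add, Units.val_mul, h1, h2, unip_mul (io_mul_io_ne (Ne.symm hab) _ _)]
    rw [this]
    exact Subgroup.mul_mem _ (hr g1 h1) (hs g2 h2)
  · intro s t c g hg
    refine Subgroup.subset_closure ⟨(a, s), Sum.inl (b, t), c, ?_, ?_⟩
    · intro h
      simp only [Sum.inl.injEq, Prod.mk.injEq] at h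
      exact hab h.1
    · rw [hg, transvection]
      congr 1
      ext x y
      rcases x with ⟨x, x'⟩ | x <;> rcases y with ⟨y, y'⟩ | y <;>
        simp [io, single_apply, ← ite_and, and_assoc]
      congr 1
      simp only [eq_iff_iff]
      tauto

lemma jo_mem (a : Fin 3) (c : Fin 2) (v : n → F)
    (g : (Matrix ((Fin 3 × n) ⊕ Fin 2) ((Fin 3 × n) ⊕ Fin 2) F)ˣ) (hg : g.val = 1 + jo a c v) :
    g ∈ QG (Fin 3 × n) F := by
  have hunit : ∀ v : n → F,
      ∃ g : (Matrix ((Fin 3 × n) ⊕ Fin 2) ((Fin 3 × n) ⊕ Fin 2) F)ˣ, g.val = 1 + jo a c v :=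
    fun r => ⟨⟨1 + jo a c r, 1 - jo a c r, unip_val (jo_mul_jo _ _ _ _ _ _),
      unip_inv (jo_mul_jo _ _ _ _ _ _)⟩, rfl⟩
  have hS : ∀ S : Finset n, ∀ g : (Matrix ((Fin 3 × n) ⊕ Fin 2)
    ((Fin 3 × n) ⊕ Fin 2) F)ˣ, g.val = 1 + jo a c (∑ s ∈ S, Pi.single s (v s)) →
      g ∈ QG (Fin 3 × n) F := by
    intro S
    induction S using Finset.induction_on with
    | empty =>
      intro g hg
      have : g = 1 := by
        refine Units.ext ?_
        rw [hg, Finset.sum_empty, jo_zero]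
        simp
      rw [this]
      exact Subgroup.one_mem _
    | insert s S hs ih =>
      intro g hg
      obtain ⟨g1, h1⟩ := hunit (Pi.single s (v s))
      obtain ⟨g2, h2⟩ := hunit (∑ s ∈ S, Pi.single s (v s))
      have : g = g1 * g2 := by
        refine Units.ext ?_
        rw [hg, Finset.sum_insert hs, jo_add, Units.val_mul, h1, h2,
          unip_mul (jo_mul_jo _ _ _ _ _ _)]
      rw [this]
      refine Subgroup.mul_mem _ ?_ (ih g2 h2)
      refine Subgroup.subset_closure ⟨(a, s), Sum.inr c, v s, by simp, ?_⟩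
      rw [h1, transvection]
      congr 1
      ext x y
      rcases x with ⟨x, x'⟩ | x <;> rcases y with ⟨y, y'⟩ | y <;>
        simp [jo, col_apply, single_apply, Pi.single_apply, ← ite_and]
      by_cases h3 : x' = s
      · subst h3
        simp [eq_comm]
      · simp [h3, Ne.symm h3]
  refine hS Finset.univ g ?_
  rw [hg, Finset.univ_sum_single]

end G3

theorem g3 : S_G3 := by
  intro p _ g hg i
  refine Subgroup.closure_induction (p := fun g _ => g i ∈ QG (Ix i) (ZMod (p i))) ?_ ?_ ?_ ?_ hg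
  · rintro g (⟨a, b, r, hab, hr, hg⟩ | ⟨a, c, r, hr, hg⟩)
    · refine io_mem hab (r i) (g i) ?_
      rw [hg i, EM_eq]
    · refine jo_mem a c ((r i).mulVec (m0 p i)) (g i) ?_
      rw [hg i, TM_eq]
  · exact Subgroup.one_mem _
  · intro x y _ _ hx hy
    exact Subgroup.mul_mem _ hx hy
  · intro x _ hx
    exact Subgroup.inv_mem _ hx

end Pool.Agent.Q176.CG
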